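import Pool.Agent.Lib.MP_a9e7ee_nt.Final

namespace Pool.Agent.Results.MP_a9e7ee_nt.Uniform

open Pool.Agent.Lib.MP_a9e7ee_nt

/-- The digits are the binary digits of `-3^{-i}`, and Q1 holds: there is a function
`c0 = c0(c1, μ) > 0` that works for all `μ > 1`, `c1 > 0` and stays above a positive constant on
every region `μ ≥ 1 + δ`, `c1 ≥ η`. -/
theorem result :
    ((3 : ℤ_[2]) * Ring.inverse 3 = 1 ∧ (∀ s i, digit s i ≤ 1) ∧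
      ∀ i, HasSum (fun s => (digit s i : ℤ_[2]) * 2 ^ s) (-(Ring.inverse (3 : ℤ_[2])) ^ i)) ∧
    ∃ c0 : ℝ → ℝ → ℝ,
      (∀ μ : ℝ, 1 < μ → ∀ c1 : ℝ, 0 < c1 → 0 < c0 c1 μ ∧
        ∀ k p : ℕ, 1 ≤ k → 1 ≤ p → (p : ℝ) ≤ c0 c1 μ * k → ∀ n : ℕ, n < 2 ^ p →
          |nu k p μ n - ((2 : ℝ) ^ p)⁻¹| ≤ c1 * ((2 : ℝ) ^ p)⁻¹) ∧
      ∀ δ : ℝ, 0 < δ → ∀ η : ℝ, 0 < η → ∃ c : ℝ, 0 < c ∧
        ∀ μ : ℝ, 1 + δ ≤ μ → ∀ c1 : ℝ, η ≤ c1 → c ≤ c0 c1 μ := by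
  refine ⟨⟨three_mul_inverse, digit_le_one, digit_hasSum⟩, ?_⟩
  let A : ℝ → ℝ → Set ℝ := fun c1 μ => {c | c ≤ 1 ∧ ∀ k p : ℕ, 1 ≤ k → 1 ≤ p → (p : ℝ) ≤ c * k →
    ∀ n : ℕ, n < 2 ^ p → |nu k p μ n - ((2 : ℝ) ^ p)⁻¹| ≤ c1 * ((2 : ℝ) ^ p)⁻¹}
  have hb : ∀ c1 μ, BddAbove (A c1 μ) := fun c1 μ => ⟨1, fun c hc => hc.1⟩
  have key : ∀ δ : ℝ, 0 < δ → ∀ η : ℝ, 0 < η → ∃ c : ℝ, 0 < c ∧
      ∀ μ : ℝ, 1 + δ ≤ μ → ∀ c1 : ℝ, η ≤ c1 → c ∈ A c1 μ := by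
    intro δ hδ η hη
    obtain ⟨c, hc, h⟩ := uniform hδ hη
    refine ⟨min c 1, lt_min hc one_pos, fun μ hμ c1 h1 => ⟨min_le_right _ _,
      fun k p hk hp hpk n hn => (h μ hμ k p hk hp (hpk.trans ?_) n hn).trans ?_⟩⟩
    · exact mul_le_mul_of_nonneg_right (min_le_left _ _) (Nat.cast_nonneg k)
    · exact mul_le_mul_of_nonneg_right h1 (by positivity)
  refine ⟨fun c1 μ => sSup (A c1 μ) / 2, fun μ hμ c1 h1 => ?_, fun δ hδ η hη => ?_⟩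
  · obtain ⟨c, hc, h⟩ := key (μ - 1) (by linarith) c1 h1
    have h2 := h μ (by linarith) c1 le_rfl
    have h3 := le_csSup (hb c1 μ) h2
    obtain ⟨c', h4, h5⟩ := exists_lt_of_lt_csSup ⟨c, h2⟩
      (show sSup (A c1 μ) / 2 < sSup (A c1 μ) by linarith)
    exact ⟨by linarith, fun k p hk hp hpk => h4.2 k p hk hp
      (hpk.trans (mul_le_mul_of_nonneg_right h5.le (Nat.cast_nonneg k)))⟩
  · obtain ⟨c, hc, h⟩ := key δ hδ η hη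
    exact ⟨c / 2, half_pos hc, fun μ hμ c1 h1 => by
      linarith [le_csSup (hb c1 μ) (h μ hμ c1 h1)]⟩

end Pool.Agent.Results.MP_a9e7ee_nt.Uniform
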